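import Mathlib

set_option autoImplicit false
set_option maxHeartbeats 400000

open Matrix MatrixGroups Topology

namespace Pool.Agent.Results.MP_847604_al.NoNormal

section Alg
variable {R : Type} [CommRing R] (N : Subgroup SL(2, R))

def mk (a b c d : R) (h : a * d - b * c = 1) : SL(2, R) :=
  ⟨!![a, b; c, d], by rw [det_fin_two_of]; exact h⟩

def In (a b c d : R) : Prop := ∃ h, mk a b c d h ∈ N

theorem mk_eta (g : SL(2, R)) : ∃ h, g = mk (g 0 0) (g 0 1) (g 1 0) (g 1 1) h := by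
  refine ⟨by have := g.det_coe; rwa [det_fin_two] at this, ?_⟩
  ext i j; fin_cases i <;> fin_cases j <;> rfl

variable {N}

theorem In.congr {a b c d a' b' c' d' : R} (h : In N a b c d) (h1 : a = a') (h2 : b = b')
    (h3 : c = c') (h4 : d = d') : In N a' b' c' d' := by
  subst h1 h2 h3 h4; exact h

theorem mk_mul (a b c d a' b' c' d' : R) (h h') : ∃ h'', mk a b c d h * mk a' b' c' d' h' =
    mk (a * a' + b * c') (a * b' + b * d') (c * a' + d * c') (c * b' + d * d') h'' := by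
  refine ⟨by linear_combination (a' * d' - b' * c') * h + h', ?_⟩
  ext i j; fin_cases i <;> fin_cases j <;> simp [mk, Matrix.mul_apply, Fin.sum_univ_two]

theorem mk_inv (a b c d : R) (h) : ∃ h', (mk a b c d h)⁻¹ = mk d (-b) (-c) a h' := by
  refine ⟨by linear_combination h, ?_⟩
  rw [inv_eq_iff_mul_eq_one]
  ext i j; fin_cases i <;> fin_cases j <;> simp [mk, Matrix.mul_apply, Fin.sum_univ_two] <;>
    first | linear_combination h | ring

theorem In.mul {a b c d a' b' c' d' : R} (h : In N a b c d) (h' : In N a' b' c' d') :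
    In N (a * a' + b * c') (a * b' + b * d') (c * a' + d * c') (c * b' + d * d') := by
  obtain ⟨h, hm⟩ := h
  obtain ⟨h', hm'⟩ := h'
  obtain ⟨h'', e⟩ := mk_mul a b c d a' b' c' d' h h'
  exact ⟨h'', e ▸ N.mul_mem hm hm'⟩

theorem In.inv {a b c d : R} (h : In N a b c d) : In N d (-b) (-c) a := by
  obtain ⟨h, hm⟩ := h
  obtain ⟨h', e⟩ := mk_inv a b c d h
  exact ⟨h', e ▸ N.inv_mem hm⟩

theorem In.conj [hN : N.Normal] {a b c d : R} (h : In N a b c d) (x y z w : R)
    (hx : x * w - y * z = 1) :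
    In N ((x * a + y * c) * w + (x * b + y * d) * -z) ((x * a + y * c) * -y + (x * b + y * d) * x)
      ((z * a + w * c) * w + (z * b + w * d) * -z)
      ((z * a + w * c) * -y + (z * b + w * d) * x) := by
  obtain ⟨h, hm⟩ := h
  have := hN.conj_mem _ hm (mk x y z w hx)
  obtain ⟨h1, e1⟩ := mk_inv x y z w hx
  obtain ⟨h2, e2⟩ := mk_mul x y z w a b c d hx h
  obtain ⟨h3, e3⟩ := mk_mul _ _ _ _ _ _ _ _ h2 h1
  rw [e1, e2, e3] at this
  exact ⟨h3, this⟩

theorem In.det {a b c d : R} (h : In N a b c d) : a * d - b * c = 1 := h.1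

theorem step1 [N.Normal] {a b c d : R} (h : In N a b c d) (hn : ¬ (b = 0 ∧ c = 0 ∧ a = d)) :
    ∃ a b c d, In N a b c d ∧ c ≠ 0 := by
  by_cases hc : c = 0
  · by_cases hb : b = 0
    · refine ⟨_, _, _, _, h.conj 1 0 1 1 (by ring), fun e => hn ⟨hb, hc, ?_⟩⟩
      rw [hb, hc] at e; linear_combination e
    · refine ⟨_, _, _, _, h.conj 0 1 (-1) 0 (by ring), fun e => hb ?_⟩
      linear_combination -e
  · exact ⟨_, _, _, _, h, hc⟩

theorem step2 [N.Normal] {a b c d : R} (h : In N a b c d) (m m' x : R) (hm : m * m' = 1)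
    (hx : c * x = m - m') (hv : ∃ t, (a - m') * t = c ∨ c * t = a - m') :
    ∃ β, In N (m * m) β 0 (m' * m') := by
  have hd := h.det
  have h1 : In N (1 - a * c * x) (-x * (1 - a * c * x) + a * a * x) (-c * c * x)
      (c * c * x * x + 1 + a * c * x) :=
    (h.mul (h.inv.conj 1 x 0 1 (by ring))).congr (by linear_combination hd)
      (by linear_combination (-x) * hd) (by ring) (by linear_combination hd)
  clear h hd
  obtain ⟨t, ht | ht⟩ := hv
  · exact ⟨_, (h1.conj 1 0 (-t) 1 (by ring)).congr (by grind) rfl (by grind) (by grind)⟩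
  · exact ⟨_, (h1.conj 0 1 (-1) t (by ring)).congr (by grind) rfl (by grind) (by grind)⟩

theorem step3 [N.Normal] {u u' β : R} (h : In N u β 0 u') (s : R) :
    In N 1 ((u * u - 1) * s) 0 1 := by
  have hd := h.det
  exact (h.mul (h.inv.conj 1 s 0 1 (by ring))).congr (by linear_combination hd)
      (by linear_combination (-s) * hd) (by ring) (by linear_combination hd)

theorem step4 [N.Normal] {w : R} (hw : ∀ s, In N 1 (w * s) 0 1) {a a' b c d : R}
    (ha : a * a' = 1) (h1 : w * w ∣ a - 1) (h2 : w ∣ b) (h3 : w ∣ c) (hd : a * d - b * c = 1) :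
    In N a b c d := by
  have hw' : ∀ s, In N 1 0 (w * s) 1 := fun s =>
    ((hw (-s)).conj 0 1 (-1) 0 (by ring)).congr (by ring) (by ring) (by ring) (by ring)
  obtain ⟨k, hk⟩ := h1
  obtain ⟨b, rfl⟩ := h2
  obtain ⟨c, rfl⟩ := h3
  have hD : In N a 0 0 a' :=
    (((hw' (-k * a')).mul ((hw 1).mul (hw' k))).mul (hw (-a'))).congr (by grind) (by grind)
      (by grind) (by grind)
  exact (((hw' (c * a')).mul hD).mul (hw (b * a'))).congr (by grind) (by grind) (by grind)
    (by grind)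

end Alg

instance : Fact (Nat.Prime 3) := ⟨Nat.prime_three⟩

theorem unit3 (k : ℤ_[3]) : ∃ m', (1 + 3 * k) * m' = 1 := by
  have h : -(3 * k) ∈ nonunits ℤ_[3] := by
    rw [PadicInt.mem_nonunits, PadicInt.norm_lt_one_iff_dvd]
    exact ⟨-k, by push_cast; ring⟩
  have := IsLocalRing.isUnit_one_sub_self_of_mem_nonunits _ h
  rw [sub_neg_eq_add] at this
  exact this.exists_right_inv

theorem ne3 (k : ℤ_[3]) : 2 + 3 * k ≠ 0 := by
  intro h
  obtain ⟨m, hm⟩ := unit3 (-1 - k)
  exact one_ne_zero (α := ℤ_[3]) (by linear_combination -hm - m * h)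

theorem dvd_of_lt (u v : ℤ_[3]) (h : ‖u‖ < ‖v‖) : v ∣ u := by
  rcases ValuationRing.dvd_total v u with h1 | ⟨t, rfl⟩
  · exact h1
  · rw [norm_mul] at h
    have := PadicInt.norm_le_one t
    have := norm_nonneg u
    nlinarith

instance : CompactSpace SL(2, ℤ_[3]) := by
  have : CompactSpace (Matrix (Fin 2) (Fin 2) ℤ_[3]) :=
    inferInstanceAs (CompactSpace (Fin 2 → Fin 2 → ℤ_[3]))
  exact SpecialLinearGroup.isClosedEmbedding_val.compactSpace

theorem isOpen_of (N : Subgroup SL(2, ℤ_[3])) [N.Normal] {a b c d : ℤ_[3]} (h : In N a b c d)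
    (hn : ¬ (b = 0 ∧ c = 0 ∧ a = d)) : IsOpen (N : Set SL(2, ℤ_[3])) := by
  obtain ⟨a, b, c, d, h, hc⟩ := step1 h hn
  obtain ⟨m', hm⟩ := unit3 c
  obtain ⟨β, h2⟩ := step2 h _ m' (m' * 3 * (2 + 3 * c)) hm (by grind) (ValuationRing.cond _ _)
  have h3 := step3 h2
  set w := (1 + 3 * c) * (1 + 3 * c) * ((1 + 3 * c) * (1 + 3 * c)) - 1 with hw
  have hw0 : w ≠ 0 := by
    have : w = 3 * c * (2 + 3 * c) * (2 + 3 * (2 * c + 3 * c * c)) := by rw [hw]; ring
    rw [this]
    exact mul_ne_zero (mul_ne_zero (mul_ne_zero (by norm_num) hc) (ne3 _)) (ne3 _)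
  have hc : ∀ i j, Continuous fun g : SL(2, ℤ_[3]) => g i j := fun i j => by fun_prop
  have hU : IsOpen {g : SL(2, ℤ_[3]) | ‖g 0 0 - 1‖ < ‖w * w‖ ∧ ‖g 0 1‖ < ‖w‖ ∧ ‖g 1 0‖ < ‖w‖} :=
    (isOpen_lt ((hc 0 0).sub continuous_const).norm continuous_const).inter
      ((isOpen_lt (hc 0 1).norm continuous_const).inter
        (isOpen_lt (hc 1 0).norm continuous_const))
  refine N.isOpen_of_mem_nhds (g := 1) (Filter.mem_of_superset (hU.mem_nhds ?_) ?_)
  · simp [hw0]
  · rintro g ⟨g1, g2, g3⟩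
    obtain ⟨hd, e⟩ := mk_eta g
    have hu : IsUnit (g 0 0) := by
      have h : -(g 0 0 - 1) ∈ nonunits ℤ_[3] := by
        rw [PadicInt.mem_nonunits, norm_neg]
        exact g1.trans_le (PadicInt.norm_le_one _)
      have := IsLocalRing.isUnit_one_sub_self_of_mem_nonunits _ h
      rwa [sub_neg_eq_add, add_sub_cancel] at this
    obtain ⟨a', ha'⟩ := hu.exists_right_inv
    obtain ⟨_, hm⟩ := step4 h3 ha' (dvd_of_lt _ _ g1) (dvd_of_lt _ _ g2) (dvd_of_lt _ _ g3) hd
    rw [e]; exact hm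

theorem unc : Uncountable ℤ_[3] := by
  rw [← not_countable_iff]
  intro hc
  obtain ⟨x, y, hy⟩ := nonempty_interior_of_iUnion_of_closed (f := fun x : ℤ_[3] => {x})
    (fun x => isClosed_singleton) (Set.iUnion_of_singleton _)
  have hxy : y = x := Set.mem_singleton_iff.1 (interior_subset hy)
  subst hxy
  obtain ⟨ε, hε, hb⟩ := Metric.mem_nhds_iff.1 (mem_interior_iff_mem_nhds.1 hy)
  obtain ⟨k, hk⟩ := PadicInt.exists_pow_neg_lt 3 hε
  have : y + ((3 : ℕ) : ℤ_[3]) ^ k ∈ Metric.ball y ε := by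
    rw [mem_ball_iff_norm, add_sub_cancel_left, PadicInt.norm_p_pow]; exact hk
  have h2 : y + ((3 : ℕ) : ℤ_[3]) ^ k = y := hb this
  simp at h2

theorem result : ∃ (G : Type) (_ : Group G) (_ : TopologicalSpace G),
    NonarchimedeanGroup G ∧ CompactSpace G ∧ TopologicalSpace.MetrizableSpace G ∧ Uncountable G ∧
      ∀ N : Subgroup G, N.Normal → Finite N ∨ Finite (G ⧸ N) := by
  refine ⟨SL(2, ℤ_[3]), inferInstance, inferInstance, ?_, inferInstance, ?_, ?_, ?_⟩
  · have : TotallyDisconnectedSpace (Matrix (Fin 2) (Fin 2) ℤ_[3]) :=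
      inferInstanceAs (TotallyDisconnectedSpace (Fin 2 → Fin 2 → ℤ_[3]))
    have : TotallyDisconnectedSpace SL(2, ℤ_[3]) :=
      inferInstanceAs (TotallyDisconnectedSpace (Subtype _))
    refine ⟨fun U hU => ?_⟩
    obtain ⟨V, hV, hVo, h1⟩ := mem_nhds_iff.1 hU
    obtain ⟨H, hH⟩ := ProfiniteGrp.exist_openNormalSubgroup_sub_open_nhds_of_one hVo h1
    exact ⟨H.toOpenSubgroup, hH.trans hV⟩
  · have : TopologicalSpace.MetrizableSpace (Matrix (Fin 2) (Fin 2) ℤ_[3]) :=
      inferInstanceAs (TopologicalSpace.MetrizableSpace (Fin 2 → Fin 2 → ℤ_[3]))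
    exact SpecialLinearGroup.isClosedEmbedding_val.isEmbedding.metrizableSpace
  · have := unc
    exact Function.Injective.uncountable (f := fun x : ℤ_[3] => mk 1 x 0 1 (by ring))
      fun x y h => congrArg (fun g : SL(2, ℤ_[3]) => g 0 1) h
  · intro N hN
    by_cases h : ∃ g ∈ N, ¬ (g 0 1 = 0 ∧ g 1 0 = 0 ∧ g 0 0 = g 1 1)
    · obtain ⟨g, hg, hn⟩ := h
      obtain ⟨hd, e⟩ := mk_eta g
      exact Or.inr (N.quotient_finite_of_isOpen (isOpen_of N ⟨hd, e ▸ hg⟩ hn))
    · left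
      push Not at h
      have : (N : Set SL(2, ℤ_[3])) ⊆ {mk 1 0 0 1 (by ring), mk (-1) 0 0 (-1) (by ring)} := by
        intro g hg
        obtain ⟨h1, h2, h3⟩ := h g hg
        obtain ⟨hd, e⟩ := mk_eta g
        rw [h1, ← h3, zero_mul, sub_zero] at hd
        rcases mul_self_eq_one_iff.1 hd with h4 | h4
        · left
          rw [e]; simp only [h1, h2, ← h3, h4]
        · right
          rw [Set.mem_singleton_iff, e]; simp only [h1, h2, ← h3, h4]
      exact (Set.toFinite _).subset this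

end Pool.Agent.Results.MP_847604_al.NoNormal
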